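import Mathlib
import Pool.Agent.Y920.EP.Stm

set_option autoImplicit false

/-! Job EP-KUM: uniqueness of the extension of a valuation ring to a cyclic extension of prime
degree `p`, if all elements of `1 + m` are `p`-th powers. -/

namespace Pool.Agent.Y86.EP

open Polynomial

section

variable {F L : Type} [Field F] [Field L] [Algebra F L]

lemma mem_term {p : ℕ} (hp : p ≠ 0) {O : ValuationSubring F} {O₁ : ValuationSubring L}
    (h : O₁.comap (algebraMap F L) = O) {α : L} {a : F} (hα : α ^ p = algebraMap F L a)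
    (f : F) (i : ℕ) : algebraMap F L f * α ^ i ∈ O₁ ↔ f ^ p * a ^ i ∈ O := by
  rw [← h, ValuationSubring.mem_comap, ← ValuationSubring.valuation_le_one_iff,
    ← ValuationSubring.valuation_le_one_iff]
  have : algebraMap F L (f ^ p * a ^ i) = (algebraMap F L f * α ^ i) ^ p := by
    rw [map_mul, map_pow, map_pow, ← hα, mul_pow]
    ring
  rw [this, map_pow]
  exact (pow_le_one_iff hp).symm

lemma val_eq_one {O : ValuationSubring F} {O₁ : ValuationSubring L}
    (h : O₁.comap (algebraMap F L) = O) (y : F) (hy : O₁.valuation (algebraMap F L y) = 1) :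
    y ∈ O ∧ y⁻¹ ∈ O := by
  constructor
  · rw [← h, ValuationSubring.mem_comap, ← ValuationSubring.valuation_le_one_iff, hy]
  · rw [← h, ValuationSubring.mem_comap, ← ValuationSubring.valuation_le_one_iff, map_inv₀,
      map_inv₀, hy, inv_one]

/-- the largest term -/
lemma exists_max {p : ℕ} (O₁ : ValuationSubring L) (t : ℕ → L) {i : ℕ} (hi : i < p)
    (hti : t i ∉ O₁) :
    ∃ j < p, t j ≠ 0 ∧ (∀ i < p, O₁.valuation (t i) ≤ O₁.valuation (t j)) ∧
      1 < O₁.valuation (t j) := by
  obtain ⟨j, hj, hmax⟩ := Finset.exists_max_image (Finset.range p) (fun i => O₁.valuation (t i))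
    ⟨i, Finset.mem_range.2 hi⟩
  have h1 : 1 < O₁.valuation (t i) := by
    rw [← ValuationSubring.valuation_le_one_iff, not_le] at hti
    exact hti
  have h2 : 1 < O₁.valuation (t j) := h1.trans_le (hmax i (Finset.mem_range.2 hi))
  refine ⟨j, Finset.mem_range.1 hj, ?_, fun i hi => hmax i (Finset.mem_range.2 hi), h2⟩
  intro h0
  rw [h0, map_zero] at h2
  exact absurd h2 (not_lt.2 zero_le_one)

/-- case R: no `a f^p` is a unit -/
lemma caseR {p : ℕ} (hp : p.Prime) {O : ValuationSubring F} {O₁ : ValuationSubring L}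
    (h : O₁.comap (algebraMap F L) = O) {α : L} {a : F} (hα : α ^ p = algebraMap F L a)
    (ha : a ≠ 0) (hR : ∀ f : F, f ≠ 0 → ¬ (a * f ^ p ∈ O ∧ (a * f ^ p)⁻¹ ∈ O)) (f : ℕ → F)
    (hx : ∑ i ∈ Finset.range p, algebraMap F L (f i) * α ^ i ∈ O₁) :
    ∀ i < p, algebraMap F L (f i) * α ^ i ∈ O₁ := by
  classical
  intro i hi
  by_contra hti
  obtain ⟨j, hj, h0, hmax, h1⟩ := exists_max O₁ (fun i => algebraMap F L (f i) * α ^ i) hi hti
  have hα0 : α ≠ 0 := by
    rintro rfl
    rw [zero_pow hp.ne_zero] at hα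
    exact ha ((map_eq_zero (algebraMap F L)).1 hα.symm)
  have key : ∀ i ∈ Finset.range p \ {j},
      O₁.valuation (algebraMap F L (f i) * α ^ i) < O₁.valuation (algebraMap F L (f j) * α ^ j) := by
    intro i hi
    rw [Finset.mem_sdiff, Finset.mem_range, Finset.mem_singleton] at hi
    refine lt_of_le_of_ne (hmax i hi.1) fun he => ?_
    -- the equality gives a unit
    have hfj : f j ≠ 0 := by
      intro e
      apply h0
      simp [e]
    have hfi : f i ≠ 0 := by
      intro e
      rw [e, map_zero, zero_mul, map_zero] at he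
      rw [← he] at h1
      exact absurd h1 (not_lt.2 zero_le_one)
    have hcop : IsCoprime ((i : ℤ) - j) (p : ℤ) := by
      rw [Int.isCoprime_iff_gcd_eq_one, Int.gcd_comm]
      have h3 : ¬ (p : ℤ) ∣ (i : ℤ) - j := by
        intro hd
        apply hi.2
        obtain ⟨k, hk⟩ := hd
        have h4 : (i : ℤ) < p := by exact_mod_cast hi.1
        have h5 : (j : ℤ) < p := by exact_mod_cast hj
        have h6 : (0 : ℤ) ≤ i := by positivity
        have h7 : (0 : ℤ) ≤ j := by positivity
        have h8 : k = 0 := by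
          by_contra hk0
          rcases lt_or_gt_of_ne hk0 with h9 | h9
          · have : k ≤ -1 := by omega
            nlinarith
          · have : 1 ≤ k := by omega
            nlinarith
        rw [h8, mul_zero] at hk
        omega
      have h4 := (Nat.prime_iff_prime_int.1 hp).coprime_iff_not_dvd.2 h3
      exact Int.isCoprime_iff_gcd_eq_one.1 h4
    obtain ⟨u, v, huv⟩ := hcop
    set g : F := f i / f j with hg
    have hg0 : g ≠ 0 := div_ne_zero hfi hfj
    have hval : O₁.valuation (algebraMap F L g * α ^ ((i : ℤ) - j)) = 1 := by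
      have : algebraMap F L g * α ^ ((i : ℤ) - j) =
          (algebraMap F L (f i) * α ^ i) / (algebraMap F L (f j) * α ^ j) := by
        rw [zpow_sub₀ hα0, hg, map_div₀, zpow_natCast, zpow_natCast]
        field_simp
      rw [this, map_div₀, he, div_self]
      exact (Valuation.ne_zero_iff _).2 h0
    have hval2 : O₁.valuation (algebraMap F L (a * (g ^ u * a ^ (-v)) ^ p)) = 1 := by
      have : algebraMap F L (a * (g ^ u * a ^ (-v)) ^ p) =
          ((algebraMap F L g * α ^ ((i : ℤ) - j)) ^ u) ^ (p : ℤ) := by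
        have e1 : ((α : L) ^ ((i : ℤ) - j)) ^ (p : ℤ) = algebraMap F L a ^ ((i : ℤ) - j) := by
          rw [← hα, ← zpow_natCast, ← zpow_mul, ← zpow_mul, mul_comm]
        have e2 : algebraMap F L a = algebraMap F L a ^ (((i : ℤ) - j) * u + v * p) := by
          rw [mul_comm ((i : ℤ) - j) u, huv, zpow_one]
        have ha' : algebraMap F L a ≠ 0 := (_root_.map_ne_zero _).2 ha
        rw [← zpow_mul, mul_comm u (p : ℤ), zpow_mul, mul_zpow, e1, mul_zpow, map_mul, map_pow,
          map_mul, map_zpow₀, map_zpow₀, mul_pow, ← zpow_natCast, ← zpow_natCast, ← zpow_mul,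
          ← zpow_mul, ← zpow_mul]
        nth_rewrite 1 [e2]
        rw [zpow_add₀ ha', ← zpow_mul, neg_mul, zpow_neg, mul_comm u (p : ℤ)]
        have : algebraMap F L a ^ (v * (p : ℤ)) ≠ 0 := zpow_ne_zero _ ha'
        field_simp
      rw [this, map_zpow₀, map_zpow₀, hval, one_zpow, one_zpow]
    exact hR _ (mul_ne_zero (zpow_ne_zero _ hg0) (zpow_ne_zero _ ha)) (val_eq_one h _ hval2)
  have := Valuation.map_sum_eq_of_lt O₁.valuation (Finset.mem_range.2 hj)
    (f := fun i => algebraMap F L (f i) * α ^ i) key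
  rw [← ValuationSubring.valuation_le_one_iff, this] at hx
  exact absurd hx (not_le.2 h1)

/-- the elements of the maximal ideal -/
lemma val_lt {O : ValuationSubring F} {O₁ : ValuationSubring L}
    (h : O₁.comap (algebraMap F L) = O) (m : O) (hm : ¬ IsUnit m) :
    O₁.valuation (algebraMap F L (m : F)) < 1 := by
  by_cases h0 : (m : F) = 0
  · rw [h0, map_zero, map_zero]
    exact zero_lt_one
  by_contra hc
  rw [not_lt] at hc
  apply hm
  have h1 : ((m : F))⁻¹ ∈ O := by
    refine h.le ?_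
    rw [ValuationSubring.mem_comap, ← ValuationSubring.valuation_le_one_iff, map_inv₀,
      map_inv₀]
    exact inv_le_one_of_one_le₀ hc
  exact IsUnit.of_mul_eq_one ⟨(m : F)⁻¹, h1⟩ (Subtype.ext (mul_inv_cancel₀ h0))

/-- the residue of `a` is not a `p`-th power -/
lemma res_not_pow {p : ℕ} (hp : p.Prime) {O : ValuationSubring F} {a : F}
    (hU : a ∈ O) (hU' : a⁻¹ ∈ O) (ha : a ≠ 0)
    (hpow : ∀ x : F, x ∈ O → x⁻¹ ∉ O → ∃ y : F, y ^ p = 1 + x) (hn : ∀ d : F, d ^ p ≠ a)
    (b : IsLocalRing.ResidueField O) : b ^ p ≠ IsLocalRing.residue O ⟨a, hU⟩ := by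
  intro hb
  obtain ⟨c, rfl⟩ := IsLocalRing.residue_surjective b
  have hva : O.valuation a = 1 := by
    refine le_antisymm ((ValuationSubring.valuation_le_one_iff _ _).2 hU) ?_
    have := (ValuationSubring.valuation_le_one_iff _ _).2 hU'
    rw [map_inv₀] at this
    exact (inv_le_one₀ (zero_lt_iff.2 ((Valuation.ne_zero_iff _).2 ha))).1 this
  have h1 : O.valuation (a - (c : F) ^ p) < 1 := by
    have h2 : (⟨a, hU⟩ : O) - c ^ p ∈ IsLocalRing.maximalIdeal O := by
      rw [← IsLocalRing.residue_eq_zero_iff, map_sub, map_pow, hb, sub_self]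
    exact (ValuationSubring.valuation_lt_one_iff _ _).1 h2
  have h2 : O.valuation ((c : F) ^ p) = 1 := by
    have h3 : (c : F) ^ p = a - (a - (c : F) ^ p) := by ring
    rw [h3, Valuation.map_sub_eq_of_lt_left _ (by rw [hva]; exact h1), hva]
  have hc0 : (c : F) ^ p ≠ 0 := by
    intro e
    rw [e, map_zero] at h2
    exact zero_ne_one h2
  have hc1 : (c : F) ≠ 0 := fun e => hc0 (by rw [e, zero_pow hp.ne_zero])
  set x : F := (a - (c : F) ^ p) / (c : F) ^ p with hx
  have hvx : O.valuation x < 1 := by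
    rw [hx, map_div₀, h2, div_one]
    exact h1
  by_cases hx0 : x = 0
  · rw [hx, div_eq_zero_iff] at hx0
    rcases hx0 with h4 | h4
    · exact hn c (sub_eq_zero.1 h4).symm
    · exact hc0 h4
  · obtain ⟨y, hy⟩ := hpow x ((ValuationSubring.valuation_le_one_iff _ _).1 hvx.le) (by
      rw [← ValuationSubring.valuation_le_one_iff, map_inv₀, not_le]
      exact (one_lt_inv₀ (zero_lt_iff.2 ((Valuation.ne_zero_iff _).2 hx0))).2 hvx)
    apply hn (c * y)
    rw [mul_pow, hy, hx]
    field_simp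
    ring

/-- case U: `a` is a unit -/
lemma caseU {p : ℕ} (hp : p.Prime) {O : ValuationSubring F} {O₁ : ValuationSubring L}
    (h : O₁.comap (algebraMap F L) = O) {α : L} {a : F} (hα : α ^ p = algebraMap F L a)
    (ha : a ≠ 0) (hU : a ∈ O) (hU' : a⁻¹ ∈ O)
    (hpow : ∀ x : F, x ∈ O → x⁻¹ ∉ O → ∃ y : F, y ^ p = 1 + x) (hn : ∀ d : F, d ^ p ≠ a)
    (f : ℕ → F) (hx : ∑ i ∈ Finset.range p, algebraMap F L (f i) * α ^ i ∈ O₁) :
    ∀ i < p, algebraMap F L (f i) * α ^ i ∈ O₁ := by
  classical
  intro i hi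
  by_contra hti
  obtain ⟨j, hj, h0, hmax, h1⟩ := exists_max O₁ (fun i => algebraMap F L (f i) * α ^ i) hi hti
  have hvα : O₁.valuation α = 1 := by
    have h2 : O₁.valuation (algebraMap F L a) = 1 := by
      have h3 : a ∈ O₁.comap (algebraMap F L) := by rw [h]; exact hU
      have h4 : a⁻¹ ∈ O₁.comap (algebraMap F L) := by rw [h]; exact hU'
      rw [ValuationSubring.mem_comap, ← ValuationSubring.valuation_le_one_iff] at h3 h4
      refine le_antisymm h3 ?_
      rw [map_inv₀, map_inv₀] at h4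
      exact (inv_le_one₀ (zero_lt_iff.2 ((Valuation.ne_zero_iff _).2
        ((_root_.map_ne_zero _).2 ha)))).1 h4
    rw [← hα, map_pow] at h2
    exact le_antisymm ((pow_le_one_iff hp.ne_zero).1 h2.le) ((one_le_pow_iff hp.ne_zero).1 h2.ge)
  have hαO : α ∈ O₁ := by rw [← ValuationSubring.valuation_le_one_iff, hvα]
  have hmem : ∀ y : F, y ∈ O → algebraMap F L y ∈ O₁ := by
    intro y hy
    rw [← h] at hy
    exact hy
  have hfj : f j ≠ 0 := by
    intro e
    apply h0
    simp [e]
  have hfj' : algebraMap F L (f j) ≠ 0 := (_root_.map_ne_zero _).2 hfj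
  have hval : ∀ i, O₁.valuation (algebraMap F L (f i) * α ^ i) =
      O₁.valuation (algebraMap F L (f i)) := by
    intro i
    rw [map_mul, map_pow, hvα, one_pow, mul_one]
  -- the coefficients
  have hg : ∀ i, i < p → f i / f j ∈ O := by
    intro i hi
    rw [← h, ValuationSubring.mem_comap, ← ValuationSubring.valuation_le_one_iff, map_div₀,
      map_div₀]
    have h2 := hmax i hi
    simp only [hval] at h2
    exact div_le_one_of_le₀ h2 zero_le
  set g : ℕ → O := fun i => if hi : i < p then ⟨f i / f j, hg i hi⟩ else 0 with hgdef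
  -- the map of residue fields
  set ψ : O →+* IsLocalRing.ResidueField O₁ :=
    (IsLocalRing.residue O₁).comp ((algebraMap F L).restrict O O₁ hmem) with hψ
  have hloc : IsLocalHom ψ := by
    constructor
    intro m hm
    by_contra hc
    have h2 := val_lt h m hc
    have h3 : ψ m = 0 := by
      rw [hψ, RingHom.comp_apply, IsLocalRing.residue_eq_zero_iff,
        ValuationSubring.valuation_lt_one_iff]
      exact h2
    rw [h3] at hm
    exact not_isUnit_zero hm
  set Ψ : IsLocalRing.ResidueField O →+* IsLocalRing.ResidueField O₁ :=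
    IsLocalRing.ResidueField.lift ψ with hΨ
  have hΨr : ∀ x : O, Ψ (IsLocalRing.residue O x) = ψ x := fun x => rfl
  set G : Polynomial (IsLocalRing.ResidueField O) :=
    ∑ i ∈ Finset.range p, C (IsLocalRing.residue O (g i)) * X ^ i with hG
  set Q : Polynomial (IsLocalRing.ResidueField O) :=
    X ^ p - C (IsLocalRing.residue O ⟨a, hU⟩) with hQ
  have hirr : Irreducible Q :=
    X_pow_sub_C_irreducible_of_prime hp (res_not_pow hp hU hU' ha hpow hn)
  have hG0 : G ≠ 0 := by
    intro e
    have h2 : G.coeff j = 1 := by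
      have hgj : g j = 1 := by
        apply Subtype.ext
        simp only [hgdef, dif_pos hj]
        exact div_self hfj
      rw [hG, finsetSum_coeff, Finset.sum_eq_single j]
      · rw [coeff_C_mul_X_pow, if_pos rfl, hgj, map_one]
      · intro i _ hij
        rw [coeff_C_mul_X_pow, if_neg (Ne.symm hij)]
      · intro hh
        exact absurd (Finset.mem_range.2 hj) hh
    rw [e, coeff_zero] at h2
    exact zero_ne_one h2
  have hGdeg : G.degree < Q.degree := by
    rw [hQ, degree_X_pow_sub_C hp.pos, hG, Finset.sum_range]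
    exact degree_sum_fin_lt _
  have hcop : IsCoprime Q G :=
    (Irreducible.coprime_iff_not_dvd hirr).2 (not_dvd_of_degree_lt hG0 hGdeg)
  obtain ⟨u, v, huv⟩ := hcop
  have hev := congrArg (eval₂ Ψ (IsLocalRing.residue O₁ ⟨α, hαO⟩)) huv
  have hQ0 : eval₂ Ψ (IsLocalRing.residue O₁ ⟨α, hαO⟩) Q = 0 := by
    rw [hQ, eval₂_sub, eval₂_X_pow, eval₂_C, hΨr, hψ, RingHom.comp_apply, ← map_pow, ← map_sub,
      IsLocalRing.residue_eq_zero_iff]
    have : (⟨α, hαO⟩ : O₁) ^ p - (algebraMap F L).restrict O O₁ hmem ⟨a, hU⟩ = 0 := by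
      apply Subtype.ext
      change α ^ p - algebraMap F L a = 0
      rw [hα, sub_self]
    rw [this]
    exact zero_mem _
  have hG1 : eval₂ Ψ (IsLocalRing.residue O₁ ⟨α, hαO⟩) G = 0 := by
    have h2 : eval₂ Ψ (IsLocalRing.residue O₁ ⟨α, hαO⟩) G = IsLocalRing.residue O₁
        (∑ i ∈ Finset.range p, (algebraMap F L).restrict O O₁ hmem (g i) * ⟨α, hαO⟩ ^ i) := by
      rw [hG, eval₂_finsetSum, map_sum]
      refine Finset.sum_congr rfl fun i _ => ?_
      rw [eval₂_mul, eval₂_C, eval₂_X_pow, hΨr, map_mul, map_pow]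
      rfl
    rw [h2, IsLocalRing.residue_eq_zero_iff, ValuationSubring.valuation_lt_one_iff]
    have h3 : ((∑ i ∈ Finset.range p, (algebraMap F L).restrict O O₁ hmem (g i) *
        (⟨α, hαO⟩ : O₁) ^ i : O₁) : L) =
        (∑ i ∈ Finset.range p, algebraMap F L (f i) * α ^ i) / algebraMap F L (f j) := by
      rw [Finset.sum_div]
      push_cast
      refine Finset.sum_congr rfl fun i hi => ?_
      have hi' := Finset.mem_range.1 hi
      have : ((algebraMap F L).restrict O O₁ hmem (g i) : L) = algebraMap F L (f i / f j) := by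
        simp only [hgdef, dif_pos hi']
        rfl
      rw [this, map_div₀]
      ring
    rw [h3, map_div₀]
    have h4 : O₁.valuation (∑ i ∈ Finset.range p, algebraMap F L (f i) * α ^ i) ≤ 1 :=
      (ValuationSubring.valuation_le_one_iff _ _).2 hx
    have h5 : 1 < O₁.valuation (algebraMap F L (f j)) := by
      have := h1
      rw [hval] at this
      exact this
    rw [div_lt_one₀ (zero_lt_one.trans h5)]
    exact h4.trans_lt h5
  rw [eval₂_add, eval₂_mul, eval₂_mul, hQ0, hG1, mul_zero, mul_zero, add_zero, eval₂_one] at hev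
  exact zero_ne_one hev

/-- `a` is not a `p`-th power -/
lemma not_pow {p : ℕ} (hp : p.Prime) [FiniteDimensional F L] (hζ : ∃ ζ : F, IsPrimitiveRoot ζ p)
    (hd : Module.finrank F L = p) {α : L} {a : F} (hα : α ^ p = algebraMap F L a)
    (hspan : ∀ x : L, ∃ f : ℕ → F, x = ∑ i ∈ Finset.range p, algebraMap F L (f i) * α ^ i)
    (d : F) : d ^ p ≠ a := by
  intro hda
  obtain ⟨ζ, hζ⟩ := hζ
  have hαF : ∃ y : F, α = algebraMap F L y := by
    by_cases hd0 : d = 0
    · refine ⟨0, ?_⟩
      rw [map_zero]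
      rw [← hda, hd0, zero_pow hp.ne_zero, map_zero] at hα
      exact pow_eq_zero_iff hp.ne_zero |>.1 hα
    · have hd' : algebraMap F L d ≠ 0 := (_root_.map_ne_zero _).2 hd0
      have h1 : (α / algebraMap F L d) ^ p = 1 := by
        rw [div_pow, hα, ← hda, map_pow, div_self (pow_ne_zero _ hd')]
      have : NeZero p := ⟨hp.ne_zero⟩
      have hζ' : IsPrimitiveRoot (algebraMap F L ζ) p :=
        hζ.map_of_injective (algebraMap F L).injective
      obtain ⟨i, _, hi⟩ := hζ'.eq_pow_of_pow_eq_one h1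
      refine ⟨ζ ^ i * d, ?_⟩
      rw [map_mul, map_pow, hi, div_mul_cancel₀ _ hd']
  obtain ⟨y, hy⟩ := hαF
  have h1 : Module.finrank F L ≤ 1 := by
    refine finrank_le_one (1 : L) fun w => ?_
    obtain ⟨f, hf⟩ := hspan w
    refine ⟨∑ i ∈ Finset.range p, f i * y ^ i, ?_⟩
    rw [hf, Algebra.smul_def, mul_one, map_sum]
    refine Finset.sum_congr rfl fun i _ => ?_
    rw [map_mul, map_pow, hy]
  rw [hd] at h1
  exact absurd h1 (not_le.2 hp.one_lt)

/-- the powers of a primitive element span -/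
lemma span_pow {p : ℕ} (hp : p.Prime) [FiniteDimensional F L] {α : L} {a : F}
    (hα : α ^ p = algebraMap F L a) (htop : IntermediateField.adjoin F {α} = ⊤) (x : L) :
    ∃ f : ℕ → F, x = ∑ i ∈ Finset.range p, algebraMap F L (f i) * α ^ i := by
  have h1 : x ∈ Algebra.adjoin F {α} := by
    have h2 : (IntermediateField.adjoin F {α}).toSubalgebra = Algebra.adjoin F {α} :=
      IntermediateField.adjoin_simple_toSubalgebra_of_isAlgebraic (Algebra.IsAlgebraic.isAlgebraic α)
    rw [← h2, htop]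
    trivial
  rw [Algebra.adjoin_singleton_eq_range_aeval] at h1
  obtain ⟨g, hg⟩ := h1
  have hmon : (X ^ p - C a : Polynomial F).Monic := monic_X_pow_sub_C a hp.ne_zero
  have hroot : aeval α (X ^ p - C a : Polynomial F) = 0 := by
    rw [map_sub, map_pow, aeval_X, aeval_C, hα, sub_self]
  have h3 : aeval α (g %ₘ (X ^ p - C a)) = x := by
    rw [modByMonic_eq_sub_mul_div, map_sub, map_mul, hroot, zero_mul, sub_zero]
    exact hg
  have hdeg : (g %ₘ (X ^ p - C a)).natDegree < p := by
    have h4 : (X ^ p - C a : Polynomial F).natDegree = p := natDegree_X_pow_sub_C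
    have := natDegree_modByMonic_lt g hmon (by
      intro e
      have h5 := congrArg natDegree e
      rw [h4, natDegree_one] at h5
      exact hp.ne_zero h5)
    rwa [h4] at this
  refine ⟨(g %ₘ (X ^ p - C a)).coeff, ?_⟩
  rw [← h3, aeval_eq_sum_range' hdeg]
  refine Finset.sum_congr rfl fun i _ => ?_
  rw [Algebra.smul_def]

end

theorem t_KUM : Pool.Agent.Y920.EP.S_KUM := by
  intro p hp F L _ _ _ _ _ hζ hd O hpow O₁ O₂ h₁ h₂
  have hcyc : IsCyclic (L ≃ₐ[F] L) := by
    have : Fact p.Prime := ⟨hp⟩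
    refine isCyclic_of_prime_card (p := p) ?_
    rw [IsGalois.card_aut_eq_finrank, hd]
  obtain ⟨α, ⟨a, hα⟩, htop⟩ := exists_root_adjoin_eq_top_of_isCyclic F L (by
    rw [hd]
    obtain ⟨ζ, hζ⟩ := hζ
    exact ⟨ζ, (mem_primitiveRoots hp.pos).2 hζ⟩)
  rw [hd] at hα
  have hspan := span_pow hp hα.symm htop
  have hn := not_pow hp hζ hd hα.symm hspan
  have ha : a ≠ 0 := by
    intro e
    exact hn 0 (by rw [e, zero_pow hp.ne_zero])
  -- a suitable root
  obtain ⟨β, b, hβ, hb, hspan', hcase⟩ : ∃ (β : L) (b : F), β ^ p = algebraMap F L b ∧ b ≠ 0 ∧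
      (∀ x : L, ∃ f : ℕ → F, x = ∑ i ∈ Finset.range p, algebraMap F L (f i) * β ^ i) ∧
      ((∀ f : F, f ≠ 0 → ¬ (b * f ^ p ∈ O ∧ (b * f ^ p)⁻¹ ∈ O)) ∨ (b ∈ O ∧ b⁻¹ ∈ O)) := by
    by_cases hR : ∀ f : F, f ≠ 0 → ¬ (a * f ^ p ∈ O ∧ (a * f ^ p)⁻¹ ∈ O)
    · exact ⟨α, a, hα.symm, ha, hspan, Or.inl hR⟩
    · push Not at hR
      obtain ⟨f, hf, h1, h2⟩ := hR
      have hf' : algebraMap F L f ≠ 0 := (_root_.map_ne_zero _).2 hf
      refine ⟨algebraMap F L f * α, a * f ^ p, ?_, mul_ne_zero ha (pow_ne_zero _ hf), ?_,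
        Or.inr ⟨h1, h2⟩⟩
      · rw [mul_pow, ← hα, map_mul, map_pow, mul_comm]
      · intro x
        obtain ⟨g, hg⟩ := hspan x
        refine ⟨fun i => g i * (f⁻¹) ^ i, ?_⟩
        rw [hg]
        refine Finset.sum_congr rfl fun i _ => ?_
        rw [map_mul, map_pow, map_inv₀, mul_pow, inv_pow, mul_assoc, inv_mul_cancel_left₀
          (pow_ne_zero _ hf')]
  have hnb := not_pow hp hζ hd hβ hspan'
  have main : ∀ O' : ValuationSubring L, O'.comap (algebraMap F L) = O → ∀ f : ℕ → F,
      (∑ i ∈ Finset.range p, algebraMap F L (f i) * β ^ i ∈ O' ↔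
        ∀ i < p, f i ^ p * b ^ i ∈ O) := by
    intro O' h' f
    constructor
    · intro hx i hi
      rw [← mem_term hp.ne_zero h' hβ]
      rcases hcase with hR | ⟨hU, hU'⟩
      · exact caseR hp h' hβ hb hR f hx i hi
      · exact caseU hp h' hβ hb hU hU' hpow hnb f hx i hi
    · intro hf
      refine sum_mem fun i hi => ?_
      rw [mem_term hp.ne_zero h' hβ]
      exact hf i (Finset.mem_range.1 hi)
  ext x
  obtain ⟨f, rfl⟩ := hspan' x
  rw [main O₁ h₁, main O₂ h₂]

end Pool.Agent.Y86.EP
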